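import Pool.Agent.Q256.TotA.Main

set_option autoImplicit false

/-!
# The numbers `(k + 1) ^ φ(n - k) + k`: the counterexample `n = 4722`

All the numbers `(k + 1) ^ φ(4722 - k) + k` with `0 < k < 4722` are composite.  For `4076` of the `k` a
prime factor is given, for the other `645` the Fermat test to the base `2` is carried out by the kernel.
-/

namespace Pool.Agent.Results.MP_aa6c6a_nt.Counterexample

/-- **Negative answer to Q1.** For `n = 4722` the number `(k + 1) ^ φ(n - k) + k` is not prime for any
`k` with `0 < k < n`; so it is not true that for every `n > 1` there is such a `k` for which this number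
is prime. -/
theorem result : (∀ k : ℕ, 0 < k → k < 4722 → ¬ ((k + 1) ^ Nat.totient (4722 - k) + k).Prime) ∧
    ¬ ∀ n : ℕ, 1 < n → ∃ k : ℕ, 0 < k ∧ k < n ∧ ((k + 1) ^ Nat.totient (n - k) + k).Prime := by
  refine ⟨Pool.Agent.Q256.TotA.not_prime, fun h => ?_⟩
  obtain ⟨k, h1, h2, h3⟩ := h 4722 (by norm_num)
  exact Pool.Agent.Q256.TotA.not_prime k h1 h2 h3

end Pool.Agent.Results.MP_aa6c6a_nt.Counterexample
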